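import Pool.Agent.V8H49.LNP.Prob

/-!
# Every language in `PSPACE` is polynomial-time many-one reducible to a language in `LNP`
-/

namespace Pool.Agent.Results.MP_2f2cf0_lc.PspaceLeLNP

open Pool.Agent.NPC Pool.Agent.V8H49.LNP
open Pool.Agent.H623R2.PS (InPSPACE)

/-- `PSPACE` is polynomial-time many-one reducible to `LNP`. -/
theorem result : ∀ L : Set (List Bool), InPSPACE L →
    ∃ L' : Set (List Bool), IsLNP L' ∧ Reduces L L' := fun _ hL => pspace_le hL

end Pool.Agent.Results.MP_2f2cf0_lc.PspaceLeLNP
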